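import Pool.Agent.P.MP_77a832_co.KB.Defs
import Pool.Agent.P.MP_77a832_co.KG.Defs

/-! Statement of the step from the selected windows to tuples of points. -/

set_option autoImplicit false

namespace Pool.Agent.P.MP_77a832_co.KT

open Finset

/-- a balanced sweep during the times `0, …, b`; only the slope property is kept -/
structure Slp {α : Type} [DecidableEq α] (x y : α → ℝ) (P : Finset α) (A : ℕ → Finset α)
    (th : ℕ → ℝ) (b : ℕ) : Prop where
  sub : ∀ t, t ≤ b → A t ⊆ P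
  card : ∀ s t, s ≤ b → t ≤ b → (A s).card = (A t).card
  mono : ∀ s t, s ≤ t → t ≤ b → th s ≤ th t
  slope : ∀ s t, s ≤ t → t ≤ b → ∀ p ∈ A t \ A s, ∀ q ∈ A s \ A t,
    x p < x q ∧ th s * (x q - x p) < y q - y p ∧ y q - y p < th t * (x q - x p)

/-- the reflection `p ↦ -p` exchanges entering and leaving points -/
theorem Slp.refl {α : Type} [DecidableEq α] {x y : α → ℝ} {P : Finset α} {A : ℕ → Finset α}
    {th : ℕ → ℝ} {b : ℕ} (h : Slp x y P A th b) :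
    Slp (fun p => -x p) (fun p => -y p) P (fun t => P \ A t) th b := by
  refine ⟨fun t _ => sdiff_subset, fun s t hs ht => ?_, h.mono, fun s t hst ht p hp q hq => ?_⟩
  · rw [card_sdiff_of_subset (h.sub s hs), card_sdiff_of_subset (h.sub t ht), h.card s t hs ht]
  · simp only [mem_sdiff, not_and, not_not] at hp hq
    obtain ⟨a, b, c⟩ := h.slope s t hst ht q (mem_sdiff.2 ⟨hq.2 hq.1.1, hq.1.2⟩) p
      (mem_sdiff.2 ⟨hp.2 hp.1.1, hp.1.2⟩)
    refine ⟨by linarith, by linarith, by linarith⟩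

/-- TUP -/
def S_TUP : Prop := ∀ K c : ℝ, 0 < c → ∃ η : ℝ, 0 < η ∧ ∀ C : ℝ, 0 ≤ C → ∃ C' : ℝ,
  ∀ (J : ℕ) (α : Type) [DecidableEq α] (x y : α → ℝ) (P : Finset α) (A : ℕ → Finset α)
    (th : ℕ → ℝ) (v : ℕ → ℕ) (S : α → Finset ℕ) (F : Finset ℕ) (s t : ℕ → ℕ) (Y : ℕ → Finset α),
    P.Nonempty → Monotone v → Slp x y P A th (v (16 ^ J)) →
    (∀ a, ∀ B ∈ S a, B < 16 ^ J) → (∀ a B, B < 16 ^ J → a ∈ KB.win A v B → B ∈ S a) →
    KG.Tails P S J K →
    KB.Sel A v J P.card c (C * (P.card / 16 ^ J)) η F s t Y →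
    (∀ B ∈ F, Y B ⊆ A (s B) \ A (t B)) →
    ∃ (T : Finset (α × (Fin 3 → α))) (lab : Fin 3 → α × (Fin 3 → α) → ℕ),
      KG.Tup x y P (fun B => th (v B)) S T Prod.fst (fun i u => u.2 i) lab J
        (C * (P.card / 16 ^ J)) C'

end Pool.Agent.P.MP_77a832_co.KT
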