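import Pool.Agent.P.MP_77a832_co.KT.Tup2
import Pool.Agent.P.MP_77a832_co.KS.AChain

/-! The tuple step, without hypotheses. -/

set_option autoImplicit false

namespace Pool.Agent.P.MP_77a832_co.KT

theorem q_TUP : S_TUP := tup_of fun _ _ _ _ _ _ _ _ h g => KS.chain h g

end Pool.Agent.P.MP_77a832_co.KT
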