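import Mathlib

/-! Counting step: tuples of three edges with a common right end. -/

set_option autoImplicit false

open Finset

namespace Pool.Agent.P.MP_77a832_co.KT

variable {α : Type*}

lemma markov_card {β : Type*} (E : Finset β) (f : β → ℝ) (hf : ∀ e ∈ E, 0 ≤ f e) (M : ℝ)
    (Q : Finset β) (hQ : Q ⊆ E) (hM : ∀ e ∈ Q, M ≤ f e) : M * Q.card ≤ ∑ e ∈ E, f e := by
  calc M * Q.card = ∑ _e ∈ Q, M := by simp [mul_comm]
    _ ≤ ∑ e ∈ Q, f e := sum_le_sum hM
    _ ≤ ∑ e ∈ E, f e := sum_le_sum_of_subset_of_nonneg hQ fun e he _ => hf e he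

/-- edges are counted through one end and the label -/
lemma card_by_end {β : Type*} [DecidableEq α] (Q : Finset β) (u : β → α) (lb : β → ℕ)
    (S : α → Finset ℕ) (Z : Finset α) (g : ℕ) (hZ : ∀ e ∈ Q, u e ∈ Z ∧ lb e ∈ S (u e))
    (hd : ∀ p B, (Q.filter fun e => u e = p ∧ lb e = B).card ≤ g) :
    Q.card ≤ g * ∑ p ∈ Z, (S p).card := by
  classical
  have h1 : Q.card ≤ g * (Z.sigma S).card := by
    refine card_le_mul_card_image_of_maps_to (f := fun e => (⟨u e, lb e⟩ : Σ _ : α, ℕ))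
      (fun e he => by simpa using hZ e he) g ?_
    rintro ⟨p, B⟩ _
    refine le_trans (card_le_card ?_) (hd p B)
    intro e he
    simp only [mem_filter, Sigma.mk.injEq, heq_eq_eq] at he ⊢
    exact he
  simpa [card_sigma] using h1

/-- pruning of the edge set -/
lemma tup_prune [DecidableEq α] (P : Finset α) (S : α → Finset ℕ) (E : Finset (α × α))
    (lb : α × α → ℕ) (cr : α × α → ℝ) (Nr : α × α → Finset α) (g : ℕ) (h c D M L : ℝ)
    (hg : 0 < g) (hh : 0 < h) (hc : 0 < c) (hn : 0 < P.card)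
    (hE : ∀ e ∈ E, e.1 ∈ P ∧ e.2 ∈ P ∧ lb e ∈ S e.1 ∧ lb e ∈ S e.2)
    (hcard : c * P.card * h * g ≤ E.card)
    (hd1 : ∀ p B, (E.filter fun e => e.1 = p ∧ lb e = B).card ≤ g)
    (hd2 : ∀ q B, (E.filter fun e => e.2 = q ∧ lb e = B).card ≤ g)
    (hcr0 : ∀ e ∈ E, 0 ≤ cr e) (hcr : ∑ e ∈ E, cr e ≤ 4 * (g : ℝ) ^ 2 * (P.card : ℝ) ^ 2)
    (hM : M = 32 * g * P.card / (c * h)) (hL : L = 2048 * P.card / (c ^ 2 * h ^ 2))
    (hNr : ∀ e ∈ E, Nr e ⊆ P) (hnr : ∀ v ∈ P, ((E.filter fun e => v ∈ Nr e).card : ℝ) ≤ 8 * M)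
    (Z : Finset α) (hZ : ∀ p ∈ P, D * h < (S p).card → p ∈ Z)
    (htail : 8 * (∑ p ∈ Z, ((S p).card : ℝ)) ≤ c * P.card * h) :
    ∃ H ⊆ E, c * P.card * h * g ≤ 2 * H.card ∧ ∀ e ∈ H, cr e ≤ M ∧ ((S e.1).card : ℝ) ≤ D * h ∧
      ((S e.2).card : ℝ) ≤ D * h ∧ ((Nr e).card : ℝ) ≤ L := by
  classical
  have hg' : (0 : ℝ) < g := by exact_mod_cast hg
  have hn' : (0 : ℝ) < P.card := by exact_mod_cast hn
  set n : ℝ := (P.card : ℝ) with hnd
  have hM0 : 0 < M := by rw [hM]; positivity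
  have hL0 : 0 < L := by rw [hL]; positivity
  set E1 := E.filter fun e => M < cr e
  set E2 := E.filter fun e => D * h < (S e.1).card
  set E3 := E.filter fun e => D * h < (S e.2).card
  set E4 := E.filter fun e => L < (Nr e).card
  set H := E.filter fun e => cr e ≤ M ∧ ((S e.1).card : ℝ) ≤ D * h ∧
      ((S e.2).card : ℝ) ≤ D * h ∧ ((Nr e).card : ℝ) ≤ L
  have h1 : 8 * (E1.card : ℝ) ≤ c * n * h * g := by
    have := (markov_card E cr hcr0 M E1 (filter_subset _ _)
      (fun e he => (mem_filter.1 he).2.le)).trans hcr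
    have e1 : 4 * (g : ℝ) ^ 2 * n ^ 2 = M * (c * n * h * g / 8) := by
      rw [hM]; field_simp; ring
    rw [e1] at this
    have := le_of_mul_le_mul_left this hM0
    linarith
  have h23 : ∀ (u : α × α → α), (∀ e ∈ E, u e ∈ P ∧ lb e ∈ S (u e)) →
      (∀ p B, (E.filter fun e => u e = p ∧ lb e = B).card ≤ g) →
      8 * ((E.filter fun e => D * h < (S (u e)).card).card : ℝ) ≤ c * n * h * g := by
    intro u hu hd
    have := card_by_end (E.filter fun e => D * h < (S (u e)).card) u lb S Z g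
      (fun e he => ⟨hZ _ (hu e (mem_filter.1 he).1).1 (mem_filter.1 he).2,
        (hu e (mem_filter.1 he).1).2⟩)
      (fun p B => le_trans (card_le_card (filter_subset_filter _ (filter_subset _ _))) (hd p B))
    have h' : ((E.filter fun e => D * h < (S (u e)).card).card : ℝ) ≤
        g * ∑ p ∈ Z, ((S p).card : ℝ) := by exact_mod_cast this
    nlinarith
  have h2 : 8 * (E2.card : ℝ) ≤ c * n * h * g :=
    h23 Prod.fst (fun e he => ⟨(hE e he).1, (hE e he).2.2.1⟩) hd1
  have h3 : 8 * (E3.card : ℝ) ≤ c * n * h * g :=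
    h23 Prod.snd (fun e he => ⟨(hE e he).2.1, (hE e he).2.2.2⟩) hd2
  have h4 : 8 * (E4.card : ℝ) ≤ c * n * h * g := by
    have a1 := markov_card E (fun e => ((Nr e).card : ℝ)) (fun _ _ => by positivity) L E4
      (filter_subset _ _) (fun e he => (mem_filter.1 he).2.le)
    have a2 : ∑ e ∈ E, ((Nr e).card : ℝ) = ∑ v ∈ P, ((E.filter fun e => v ∈ Nr e).card : ℝ) := by
      have : ∀ e ∈ E, ((Nr e).card : ℝ) = ∑ v ∈ P, if v ∈ Nr e then (1 : ℝ) else 0 := by
        intro e he
        rw [sum_boole, filter_mem_eq_inter, inter_eq_right.2 (hNr e he)]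
      rw [sum_congr rfl this, sum_comm]
      exact sum_congr rfl fun v _ => by rw [sum_boole]
    have a3 : ∑ v ∈ P, ((E.filter fun e => v ∈ Nr e).card : ℝ) ≤ n * (8 * M) := by
      calc _ ≤ ∑ _v ∈ P, 8 * M := sum_le_sum hnr
        _ = n * (8 * M) := by simp [hnd]
    have e1 : n * (8 * M) = L * (c * n * h * g / 8) := by
      rw [hM, hL]; field_simp; ring
    have := le_of_mul_le_mul_left (a1.trans (a2.le.trans (a3.trans e1.le))) hL0
    linarith
  have hcov : E ⊆ H ∪ (E1 ∪ (E2 ∪ (E3 ∪ E4))) := by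
    intro e he
    simp only [H, E1, E2, E3, E4, mem_union, mem_filter, he, true_and]
    by_contra hcon
    push Not at hcon
    obtain ⟨a, b, c, d, e⟩ := hcon
    exact absurd (a b c d) (not_lt.2 e)
  have hsum : E.card ≤ H.card + (E1.card + (E2.card + (E3.card + E4.card))) :=
    (card_le_card hcov).trans ((card_union_le _ _).trans (Nat.add_le_add_left
      ((card_union_le _ _).trans (Nat.add_le_add_left ((card_union_le _ _).trans
        (Nat.add_le_add_left (card_union_le _ _) _)) _)) _))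
  have hsum' : (E.card : ℝ) ≤ H.card + (E1.card + (E2.card + (E3.card + E4.card))) := by
    exact_mod_cast hsum
  exact ⟨H, filter_subset _ _, by linarith, fun e he => (mem_filter.1 he).2⟩


/-- left neighbours of `q` -/
def nb [DecidableEq α] (H : Finset (α × α)) (q : α) : Finset α :=
  (H.filter fun e => e.2 = q).image Prod.fst

lemma mem_nb [DecidableEq α] {H : Finset (α × α)} {p q : α} : p ∈ nb H q ↔ (p, q) ∈ H := by
  simp only [nb, mem_image, mem_filter]
  constructor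
  · rintro ⟨⟨a, b⟩, ⟨h, rfl⟩, rfl⟩; exact h
  · intro h; exact ⟨(p, q), ⟨h, rfl⟩, rfl⟩

lemma card_nb_filter [DecidableEq α] (H : Finset (α × α)) (q : α) (r : α × α → Prop)
    [DecidablePred r] :
    ((nb H q).filter fun p => r (p, q)).card = (H.filter fun e => e.2 = q ∧ r e).card := by
  refine card_bij (fun p _ => (p, q)) ?_ ?_ ?_
  · intro p hp
    simp only [mem_filter, mem_nb] at hp ⊢
    exact ⟨hp.1, trivial, hp.2⟩
  · intro p _ p' _ h
    exact (Prod.mk.inj h).1
  · rintro ⟨a, b⟩ he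
    simp only [mem_filter] at he
    obtain ⟨h1, rfl, h2⟩ := he
    exact ⟨a, mem_filter.2 ⟨mem_nb.2 h1, h2⟩, rfl⟩

/-- all tuples of three edges with a common right end -/
def tup [DecidableEq α] (P : Finset α) (H : Finset (α × α)) : Finset (α × (Fin 3 → α)) :=
  P.biUnion fun q => (Fintype.piFinset fun _ : Fin 3 => nb H q).image fun f => (q, f)

lemma mem_tup [DecidableEq α] {P : Finset α} {H : Finset (α × α)} {t : α × (Fin 3 → α)} :
    t ∈ tup P H ↔ t.1 ∈ P ∧ ∀ i, (t.2 i, t.1) ∈ H := by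
  simp only [tup, mem_biUnion, mem_image, Fintype.mem_piFinset, mem_nb]
  constructor
  · rintro ⟨q, hq, f, hf, rfl⟩; exact ⟨hq, hf⟩
  · rintro ⟨h1, h2⟩; exact ⟨t.1, h1, t.2, h2, rfl⟩

lemma card_tup [DecidableEq α] (P : Finset α) (H : Finset (α × α)) :
    (tup P H).card = ∑ q ∈ P, (nb H q).card ^ 3 := by
  unfold tup
  rw [card_biUnion]
  · refine sum_congr rfl fun q _ => ?_
    rw [card_image_of_injective _ (fun f f' h => (Prod.mk.inj h).2), Fintype.card_piFinset]
    simp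
  · intro q _ q' _ hne
    simp only [Function.onFun, disjoint_left, mem_image]
    rintro t ⟨f, _, rfl⟩ ⟨f', _, h⟩
    exact hne (Prod.mk.inj h).1.symm

lemma card_tup_ge [DecidableEq α] (P : Finset α) (H : Finset (α × α)) (hH : ∀ e ∈ H, e.2 ∈ P) :
    (H.card : ℝ) ^ 3 ≤ (P.card : ℝ) ^ 2 * (tup P H).card := by
  have h1 : H.card = ∑ q ∈ P, (nb H q).card := by
    rw [card_eq_sum_card_fiberwise (f := Prod.snd) (t := P) (fun e he => hH e he)]
    refine sum_congr rfl fun q _ => ?_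
    have := card_nb_filter H q (fun _ => True)
    simpa using this.symm
  have h2 := pow_sum_le_card_mul_sum_pow (s := P) (f := fun q => ((nb H q).card : ℝ))
    (fun _ _ => by positivity) 2
  rw [card_tup, h1]
  push_cast
  exact h2

/-- a set of tuples with a fixed right end, inside a box -/
lemma card_box [DecidableEq α] (Q : Finset (α × (Fin 3 → α))) (q : α) (b : Fin 3 → Finset α)
    (h : ∀ t ∈ Q, t.1 = q ∧ ∀ k, t.2 k ∈ b k) : Q.card ≤ ∏ k, (b k).card := by
  rw [← Fintype.card_piFinset]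
  refine card_le_card_of_injOn Prod.snd (fun t ht => ?_) fun t ht t' ht' e => ?_
  · exact mem_coe.2 (Fintype.mem_piFinset.2 (h t ht).2)
  · exact Prod.ext ((h t ht).1.trans (h t' ht').1.symm) e

lemma prod_one_two (i : Fin 3) (a d : ℝ) : ∏ k : Fin 3, (if k = i then a else d) = a * d ^ 2 := by
  fin_cases i <;> simp [Fin.prod_univ_three] <;> ring

lemma prod_two_one (i j : Fin 3) (hij : i ≠ j) (a d : ℝ) :
    ∏ k : Fin 3, (if k = i ∨ k = j then a else d) = a ^ 2 * d := by
  rw [Fin.prod_univ_three]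
  fin_cases i <;> fin_cases j <;> first | exact absurd rfl hij | (norm_num [Fin.ext_iff]; try ring_nf; try simp)

lemma card_box' [DecidableEq α] (Q : Finset (α × (Fin 3 → α))) (q : α) (b : Fin 3 → Finset α)
    (m : Fin 3 → ℝ) (hm : ∀ k, ((b k).card : ℝ) ≤ m k)
    (h : ∀ t ∈ Q, t.1 = q ∧ ∀ k, t.2 k ∈ b k) : (Q.card : ℝ) ≤ ∏ k, m k := by
  have h1 : (Q.card : ℝ) ≤ ∏ k, ((b k).card : ℝ) := by exact_mod_cast card_box Q q b h
  exact h1.trans (prod_le_prod (fun _ _ => by positivity) fun k _ => hm k)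

/-- marginal of one left end and its label -/
lemma tup_marg [DecidableEq α] (P : Finset α) (H : Finset (α × α)) (lb : α × α → ℕ) (g d : ℝ)
    (hd : ∀ q, ((nb H q).card : ℝ) ≤ d) (i : Fin 3) (p : α) (B : ℕ)
    (hg : ((H.filter fun e => e.1 = p ∧ lb e = B).card : ℝ) ≤ g)
    (Q : Finset (α × (Fin 3 → α))) (hQ : Q ⊆ tup P H)
    (h : ∀ t ∈ Q, t.2 i = p ∧ lb (t.2 i, t.1) = B) : (Q.card : ℝ) ≤ g * d ^ 2 := by
  classical
  set G := H.filter fun e => e.1 = p ∧ lb e = B
  have h1 : Q.card = ∑ e ∈ G, (Q.filter fun t => (t.2 i, t.1) = e).card :=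
    card_eq_sum_card_fiberwise (f := fun t => (t.2 i, t.1)) fun t ht =>
      mem_coe.2 (mem_filter.2 ⟨(mem_tup.1 (hQ ht)).2 i, h t ht⟩)
  have h2 : ∀ e ∈ G, ((Q.filter fun t => (t.2 i, t.1) = e).card : ℝ) ≤ d ^ 2 := by
    intro e _
    have := card_box' (Q.filter fun t => (t.2 i, t.1) = e) e.2
      (fun k => if k = i then {e.1} else nb H e.2) (fun k => if k = i then 1 else d)
      (fun k => by by_cases hk : k = i <;> simp [hk, hd]) (fun t ht => by
        obtain ⟨ht1, rfl⟩ := mem_filter.1 ht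
        refine ⟨rfl, fun k => ?_⟩
        by_cases hk : k = i
        · simp [hk]
        · simpa [hk, mem_nb] using (mem_tup.1 (hQ ht1)).2 k)
    rwa [prod_one_two, one_mul] at this
  rw [h1]
  push_cast
  calc _ ≤ ∑ _e ∈ G, d ^ 2 := sum_le_sum h2
    _ = G.card * d ^ 2 := by simp
    _ ≤ g * d ^ 2 := mul_le_mul_of_nonneg_right hg (by positivity)


/-- tuples whose two labels form a marked pair -/
lemma tup_bad [DecidableEq α] (P : Finset α) (H : Finset (α × α)) (lb : α × α → ℕ) (F : Finset ℕ)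
    (Y : ℕ → Finset α) (g d : ℝ) 
    (hd : ∀ q, ((nb H q).card : ℝ) ≤ d) (hH : ∀ e ∈ H, lb e ∈ F ∧ e.2 ∈ Y (lb e))
    (hg : ∀ q B, ((H.filter fun e => e.2 = q ∧ lb e = B).card : ℝ) ≤ g)
    (r : ℕ → ℕ → Prop) [∀ a b, Decidable (r a b)] (i j : Fin 3) (hij : i ≠ j)
    (Q : Finset (α × (Fin 3 → α))) (hQ : Q ⊆ tup P H)
    (h : ∀ t ∈ Q, r (lb (t.2 i, t.1)) (lb (t.2 j, t.1))) :
    (Q.card : ℝ) ≤
      (∑ B ∈ F, ∑ B1 ∈ F, if r B B1 then ((Y B ∩ Y B1).card : ℝ) else 0) * (g ^ 2 * d) := by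
  classical
  have h1 : Q.card = ∑ b ∈ F ×ˢ F,
      (Q.filter fun t => (lb (t.2 i, t.1), lb (t.2 j, t.1)) = b).card :=
    card_eq_sum_card_fiberwise (f := fun t => (lb (t.2 i, t.1), lb (t.2 j, t.1))) fun t ht =>
      mem_coe.2 (mem_product.2 ⟨(hH _ ((mem_tup.1 (hQ ht)).2 i)).1,
        (hH _ ((mem_tup.1 (hQ ht)).2 j)).1⟩)
  rw [h1, ← sum_product', sum_mul]
  push_cast
  refine sum_le_sum ?_
  rintro ⟨B, B1⟩ _
  set Q1 := Q.filter fun t => (lb (t.2 i, t.1), lb (t.2 j, t.1)) = (B, B1) with hQ1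
  have hm : ∀ t ∈ Q1, t ∈ Q ∧ lb (t.2 i, t.1) = B ∧ lb (t.2 j, t.1) = B1 := fun t ht => by
    simpa [hQ1] using ht
  by_cases hr : r B B1
  · simp only [hr, if_true]
    have h2 : Q1.card = ∑ q ∈ Y B ∩ Y B1, (Q1.filter fun t => t.1 = q).card :=
      card_eq_sum_card_fiberwise (f := Prod.fst) fun t ht => by
        obtain ⟨a, b, c⟩ := hm t ht
        have u := (hH _ ((mem_tup.1 (hQ a)).2 i)).2
        have v := (hH _ ((mem_tup.1 (hQ a)).2 j)).2
        rw [b] at u; rw [c] at v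
        exact mem_coe.2 (mem_inter.2 ⟨u, v⟩)
    have h3 : ∀ q ∈ Y B ∩ Y B1, ((Q1.filter fun t => t.1 = q).card : ℝ) ≤ g ^ 2 * d := by
      intro q _
      have := card_box' (Q1.filter fun t => t.1 = q) q
        (fun k => if k = i then (nb H q).filter fun p => lb (p, q) = B else
          if k = j then (nb H q).filter fun p => lb (p, q) = B1 else nb H q)
        (fun k => if k = i ∨ k = j then g else d)
        (fun k => by
          by_cases hk : k = i
          · simp only [hk, if_true, true_or]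
            rw [card_nb_filter H q fun e => lb e = B]; exact hg q B
          · by_cases hk' : k = j
            · subst hk'
              simp only [hk, if_false, if_true, or_true]
              rw [card_nb_filter H q fun e => lb e = B1]; exact hg q B1
            · simp only [hk, hk', if_false, or_self]; exact hd q)
        (fun t ht => by
          obtain ⟨ht1, rfl⟩ := mem_filter.1 ht
          obtain ⟨a, b, c⟩ := hm t ht1
          refine ⟨rfl, fun k => ?_⟩
          have u := mem_nb.2 ((mem_tup.1 (hQ a)).2 k)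
          by_cases hk : k = i
          · subst hk
            simp only [if_true]; exact mem_filter.2 ⟨u, b⟩
          · by_cases hk' : k = j
            · subst hk'
              simp only [hk, if_false, if_true]; exact mem_filter.2 ⟨u, c⟩
            · simp only [hk, hk', if_false]; exact u)
      rwa [prod_two_one i j hij] at this
    rw [h2]
    push_cast
    calc _ ≤ ∑ _q ∈ Y B ∩ Y B1, g ^ 2 * d := sum_le_sum h3
      _ = _ := by simp
  · have : Q1 = ∅ := eq_empty_of_forall_notMem fun t ht => by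
      obtain ⟨a, b, c⟩ := hm t ht
      have := h t a
      rw [b, c] at this
      exact hr this
    simp [this, hr]

/-- few triples of left ends -/
lemma tup_triples [DecidableEq α] (x : α → ℝ) (P : Finset α) (H : Finset (α × α))
    (Nr : α × α → Finset α) (L : ℝ) (hL0 : 0 ≤ L) (hP : ∀ e ∈ H, e.1 ∈ P)
    (hL : ∀ e ∈ H, ((Nr e).card : ℝ) ≤ L)
    (hs : ∀ p p' q q0, (p, q) ∈ H → (p', q) ∈ H → (p, q0) ∈ H → x p ≤ x p' → x q ≤ x q0 →
      p' ∈ Nr (p, q0)) :
    (((tup P H).image Prod.snd).card : ℝ) ≤ 3 * P.card * L ^ 2 := by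
  classical
  have hN : ∀ p : α, ∃ N : Finset α, (N.card : ℝ) ≤ L ∧
      ∀ p' q, (p, q) ∈ H → (p', q) ∈ H → x p ≤ x p' → p' ∈ N := by
    intro p
    rcases (H.filter fun e => e.1 = p).eq_empty_or_nonempty with h0 | h0
    · refine ⟨∅, by simpa using hL0, fun p' q h _ _ => ?_⟩
      have : (p, q) ∈ H.filter fun e => e.1 = p := mem_filter.2 ⟨h, rfl⟩
      rw [h0] at this
      exact absurd this (notMem_empty _)
    · obtain ⟨⟨a, q0⟩, he, hm⟩ := exists_max_image _ (fun e => x e.2) h0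
      obtain ⟨he1, rfl⟩ := mem_filter.1 he
      exact ⟨Nr (a, q0), hL _ he1, fun p' q h h' hx =>
        hs a p' q q0 h h' he1 hx (hm (a, q) (mem_filter.2 ⟨h, rfl⟩))⟩
  choose N hN1 hN2 using hN
  have hsub : (tup P H).image Prod.snd ⊆ (univ ×ˢ P : Finset (Fin 3 × α)).biUnion fun z =>
      Fintype.piFinset fun k => if k = z.1 then {z.2} else N z.2 := by
    intro f hf
    obtain ⟨t, ht, rfl⟩ := mem_image.1 hf
    obtain ⟨i, -, hi⟩ := exists_min_image univ (fun k => x (t.2 k)) univ_nonempty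
    have ht2 := (mem_tup.1 ht).2
    refine mem_biUnion.2 ⟨(i, t.2 i), mem_product.2 ⟨mem_univ _, hP _ (ht2 i)⟩,
      Fintype.mem_piFinset.2 fun k => ?_⟩
    by_cases hk : k = i
    · simp [hk]
    · simp only [hk, if_false]
      exact hN2 _ _ _ (ht2 i) (ht2 k) (hi k (mem_univ _))
  have h1 := (card_le_card hsub).trans card_biUnion_le
  have h2 : ∀ z ∈ (univ ×ˢ P : Finset (Fin 3 × α)),
      ((Fintype.piFinset fun k => if k = z.1 then {z.2} else N z.2).card : ℝ) ≤ L ^ 2 := by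
    intro z _
    rw [Fintype.card_piFinset]
    push_cast
    refine (prod_le_prod (g := fun k => if k = z.1 then 1 else L) (fun _ _ => by positivity)
      fun k _ => ?_).trans (by rw [prod_one_two, one_mul])
    by_cases hk : k = z.1 <;> simp [hk, hN1]
  calc _ ≤ ∑ z ∈ (univ ×ˢ P : Finset (Fin 3 × α)),
        ((Fintype.piFinset fun k => if k = z.1 then {z.2} else N z.2).card : ℝ) := by
        exact_mod_cast h1
    _ ≤ ∑ _z ∈ (univ ×ˢ P : Finset (Fin 3 × α)), L ^ 2 := sum_le_sum h2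
    _ = _ := by simp

end Pool.Agent.P.MP_77a832_co.KT
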