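import Pool.Agent.P.MP_77a832_co.KT.Tup0
import Pool.Agent.P.MP_77a832_co.KB.Defs

/-! The counting step assembled for an abstract edge set. -/

set_option autoImplicit false

open Finset

namespace Pool.Agent.P.MP_77a832_co.KT

variable {α : Type}

lemma tup_core [DecidableEq α] (x : α → ℝ) (P : Finset α) (S : α → Finset ℕ)
    (E : Finset (α × α)) (lb : α × α → ℕ) (cr : α × α → ℝ) (Nr : α × α → Finset α)
    (F : Finset ℕ) (Y : ℕ → Finset α) (g : ℕ) (h c D M L η om : ℝ)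
    (hg : 0 < g) (hh : 0 < h) (hc : 0 < c) (hn : 0 < P.card) (hD : 0 < D)
    (hE : ∀ e ∈ E, e.1 ∈ P ∧ e.2 ∈ P ∧ lb e ∈ S e.1 ∧ lb e ∈ S e.2)
    (hF : ∀ e ∈ E, lb e ∈ F ∧ e.2 ∈ Y (lb e))
    (hcard : c * P.card * h * g ≤ E.card)
    (hd1 : ∀ p B, (E.filter fun e => e.1 = p ∧ lb e = B).card ≤ g)
    (hd2 : ∀ q B, (E.filter fun e => e.2 = q ∧ lb e = B).card ≤ g)
    (hcr0 : ∀ e ∈ E, 0 ≤ cr e) (hcr : ∑ e ∈ E, cr e ≤ 4 * (g : ℝ) ^ 2 * (P.card : ℝ) ^ 2)
    (hM : M = 32 * g * P.card / (c * h)) (hL : L = 2048 * P.card / (c ^ 2 * h ^ 2))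
    (hNr : ∀ e ∈ E, Nr e ⊆ P) (hnr : ∀ v ∈ P, ((E.filter fun e => v ∈ Nr e).card : ℝ) ≤ 8 * M)
    (Z : Finset α) (hZ : ∀ p ∈ P, D * h < (S p).card → p ∈ Z)
    (htail : 8 * (∑ p ∈ Z, ((S p).card : ℝ)) ≤ c * P.card * h)
    (hs : ∀ p p' q q0, (p, q) ∈ E → (p', q) ∈ E → (p, q0) ∈ E → cr (p, q) ≤ M → cr (p', q) ≤ M →
      cr (p, q0) ≤ M → x p ≤ x p' → x q ≤ x q0 → p' ∈ Nr (p, q0))
    (hbig : KB.big F Y om ≤ η * P.card * h ^ 2) (hη : 96 * D * η ≤ c ^ 3) :
    ∃ T : Finset (α × (Fin 3 → α)),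
      (∀ t ∈ T, ∀ i, (t.2 i, t.1) ∈ E ∧ ((S (t.2 i)).card : ℝ) ≤ D * h) ∧
      (∀ t ∈ T, ∀ i j, i ≠ j → lb (t.2 i, t.1) ≠ lb (t.2 j, t.1) ∧
        ((Y (lb (t.2 i, t.1)) ∩ Y (lb (t.2 j, t.1))).card : ℝ) ≤ om) ∧
      c ^ 3 * P.card * (h * g) ^ 3 ≤ 16 * T.card ∧
      ((T.image Prod.snd).card : ℝ) ≤ 3 * P.card * L ^ 2 ∧
      ∀ (i : Fin 3) (p : α) (B : ℕ), ∀ Q ⊆ T, (∀ t ∈ Q, t.2 i = p ∧ lb (t.2 i, t.1) = B) →
        (Q.card : ℝ) ≤ g * (D * h * g) ^ 2 := by
  classical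
  obtain ⟨H, hHE, hHc, hH⟩ := tup_prune P S E lb cr Nr g h c D M L hg hh hc hn hE hcard hd1 hd2
    hcr0 hcr hM hL hNr hnr Z hZ htail
  have hg' : (0 : ℝ) < g := by exact_mod_cast hg
  have hn' : (0 : ℝ) < P.card := by exact_mod_cast hn
  have hf1 : ∀ p B, ((H.filter fun e => e.1 = p ∧ lb e = B).card : ℝ) ≤ g := fun p B => by
    exact_mod_cast (card_le_card (filter_subset_filter _ hHE)).trans (hd1 p B)
  have hf2 : ∀ q B, ((H.filter fun e => e.2 = q ∧ lb e = B).card : ℝ) ≤ g := fun q B => by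
    exact_mod_cast (card_le_card (filter_subset_filter _ hHE)).trans (hd2 q B)
  have hd : ∀ q, ((nb H q).card : ℝ) ≤ D * h * g := by
    intro q
    rcases (nb H q).eq_empty_or_nonempty with h0 | ⟨p, hp⟩
    · rw [h0, card_empty, Nat.cast_zero]; positivity
    have h1 : (nb H q).card = (H.filter fun e => e.2 = q).card := by
      simpa using card_nb_filter H q (fun _ => True)
    have h2 := card_by_end (H.filter fun e => e.2 = q) Prod.snd lb S {q} g
      (fun e he => ⟨mem_singleton.2 (mem_filter.1 he).2, (hE e (hHE (mem_filter.1 he).1)).2.2.2⟩)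
      (fun p B => (card_le_card (filter_subset_filter _ ((filter_subset _ _).trans hHE))).trans
        (hd2 p B))
    rw [sum_singleton, ← h1] at h2
    have h3 : ((nb H q).card : ℝ) ≤ g * (S q).card := by exact_mod_cast h2
    have h4 : ((S q).card : ℝ) ≤ D * h := (hH _ (mem_nb.1 hp)).2.2.1
    nlinarith
  set r : ℕ → ℕ → Prop := fun B B1 => B = B1 ∨ om < (Y B ∩ Y B1).card with hr
  set T := (tup P H).filter fun t => ∀ i j, i ≠ j → ¬ r (lb (t.2 i, t.1)) (lb (t.2 j, t.1))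
    with hT
  have hTs : T ⊆ tup P H := filter_subset _ _
  refine ⟨T, fun t ht i => ?_, fun t ht i j hij => ?_, ?_, ?_, fun i p B Q hQ hq => ?_⟩
  · have := (mem_tup.1 (hTs ht)).2 i
    exact ⟨hHE this, (hH _ this).2.1⟩
  · have := (mem_filter.1 ht).2 i j hij
    simp only [hr, not_or, not_lt] at this
    exact this
  · have hcov : tup P H ⊆ T ∪ (univ : Finset (Fin 3)).offDiag.biUnion fun z =>
        (tup P H).filter fun t => r (lb (t.2 z.1, t.1)) (lb (t.2 z.2, t.1)) := by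
      intro t ht
      by_cases hb : ∀ i j, i ≠ j → ¬ r (lb (t.2 i, t.1)) (lb (t.2 j, t.1))
      · exact mem_union_left _ (mem_filter.2 ⟨ht, hb⟩)
      · push Not at hb
        obtain ⟨i, j, hij, hb⟩ := hb
        exact mem_union_right _ (mem_biUnion.2 ⟨(i, j), by simpa using hij, mem_filter.2 ⟨ht, hb⟩⟩)
    have h1 := (card_le_card hcov).trans ((card_union_le _ _).trans
      (Nat.add_le_add_left card_biUnion_le _))
    have h2 : ∀ z ∈ (univ : Finset (Fin 3)).offDiag,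
        (((tup P H).filter fun t => r (lb (t.2 z.1, t.1)) (lb (t.2 z.2, t.1))).card : ℝ) ≤
          η * P.card * h ^ 2 * (g ^ 2 * (D * h * g)) := by
      intro z hz
      have := tup_bad P H lb F Y g (D * h * g) hd (fun e he => hF e (hHE he)) hf2 r z.1 z.2
        (mem_offDiag.1 hz).2.2 _ (filter_subset _ _) (fun t ht => (mem_filter.1 ht).2)
      refine this.trans (mul_le_mul_of_nonneg_right ?_ (by positivity))
      refine le_trans (le_of_eq ?_) hbig
      unfold KB.big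
      refine sum_congr rfl fun B _ => sum_congr rfl fun B1 _ => ?_
      simp only [hr]
    have h3 : ((tup P H).card : ℝ) ≤ T.card + 6 * (η * P.card * h ^ 2 * (g ^ 2 * (D * h * g))) := by
      calc ((tup P H).card : ℝ) ≤ T.card + ∑ z ∈ (univ : Finset (Fin 3)).offDiag,
            (((tup P H).filter fun t => r (lb (t.2 z.1, t.1)) (lb (t.2 z.2, t.1))).card : ℝ) := by
            exact_mod_cast h1
        _ ≤ T.card + ∑ _z ∈ (univ : Finset (Fin 3)).offDiag,
            η * P.card * h ^ 2 * (g ^ 2 * (D * h * g)) := by gcongr with z hz; exact h2 z hz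
        _ = _ := by simp [offDiag_card]
    have h4 := card_tup_ge P H (fun e he => (hE e (hHE he)).2.1)
    have h5 : (c * P.card * h * g) ^ 3 ≤ (2 * (H.card : ℝ)) ^ 3 := by gcongr
    have h6 : c ^ 3 * P.card * (h * g) ^ 3 ≤ 8 * (tup P H).card := by
      have : (P.card : ℝ) ^ 2 * (c ^ 3 * P.card * (h * g) ^ 3) ≤
          (P.card : ℝ) ^ 2 * (8 * (tup P H).card) := by nlinarith
      exact le_of_mul_le_mul_left this (by positivity)
    have h7 : 96 * D * η * (P.card * (h * g) ^ 3) ≤ c ^ 3 * (P.card * (h * g) ^ 3) :=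
      mul_le_mul_of_nonneg_right hη (by positivity)
    nlinarith
  · refine le_trans ?_ (tup_triples x P H Nr L (by rw [hL]; positivity)
      (fun e he => (hE e (hHE he)).1) (fun e he => (hH e he).2.2.2)
      (fun p p' q q0 a b c u v => hs p p' q q0 (hHE a) (hHE b) (hHE c) (hH _ a).1 (hH _ b).1
        (hH _ c).1 u v))
    exact_mod_cast card_le_card (image_subset_image hTs)
  · exact tup_marg P H lb g _ hd i p B (hf1 p B) Q (hQ.trans hTs) hq

end Pool.Agent.P.MP_77a832_co.KT
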