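import Pool.Agent.P.MP_77a832_co.KT.Tup1
import Pool.Agent.P.MP_77a832_co.KT.Defs
import Pool.Agent.P.MP_77a832_co.KS.ASand

/-! From the chain system of the selected steps to tuples of points. -/

set_option autoImplicit false

open Finset

namespace Pool.Agent.P.MP_77a832_co.KT

open KS

/-- the chain system of a sweep -/
def S_CHAIN : Prop := ∀ (α : Type) [DecidableEq α] (x y : α → ℝ) (P : Finset α) (A : ℕ → Finset α)
  (th : ℕ → ℝ) (N : ℕ), Sw x y P A th N → ∀ g : ℕ,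
  ∃ (Ed : ℕ → Finset (α × α)) (I : Finset (ℕ × α)) (C : ℕ × α → ℝ → ℝ) (ch : α × α → ℕ × α),
    Sys x y ((range N).biUnion Ed) I C ch ∧
    (∀ j < N, ∀ e ∈ Ed j, e.1 ∈ A (j + 1) \ A j ∧ e.2 ∈ A j \ A (j + 1)) ∧
    (∀ j < N, ∀ p, ((Ed j).filter fun e => e.1 = p).card ≤ g ∧
      ((Ed j).filter fun e => e.2 = p).card ≤ g) ∧
    (∀ j < N, g ≤ (A (j + 1) \ A j).card →
      (∀ p ∈ A (j + 1) \ A j, ((Ed j).filter fun e => e.1 = p).card = g) ∧
      (∀ q ∈ A j \ A (j + 1), ((Ed j).filter fun e => e.2 = q).card = g)) ∧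
    (∀ j < N, ∀ j' < N, ∀ e, e ∈ Ed j → e ∈ Ed j' → j = j') ∧
    ∑ e ∈ (range N).biUnion Ed, cr x y I C e ≤ 4 * (g * P.card) ^ 2

/-- the times of the selected steps, as one monotone sequence -/
lemma times (v s t : ℕ → ℕ) (F : Finset ℕ) (m : ℕ) (hv : Monotone v) (hF : ∀ B ∈ F, B < m)
    (ht : ∀ B ∈ F, v B ≤ s B ∧ s B ≤ t B ∧ t B ≤ v (B + 1)) :
    ∃ τ : ℕ → ℕ, (∀ j, τ j ≤ τ (j + 1)) ∧ (∀ j, j ≤ 2 * m → τ j ≤ v m) ∧
      ∀ B ∈ F, τ (2 * B) = s B ∧ τ (2 * B + 1) = t B := by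
  let τ : ℕ → ℕ := fun j => if j / 2 ∈ F then (if j % 2 = 0 then s (j / 2) else t (j / 2))
    else v (j / 2)
  have h1 : ∀ j, v (j / 2) ≤ τ j ∧ τ j ≤ v (j / 2 + 1) := by
    intro j
    simp only [τ]
    by_cases h : j / 2 ∈ F
    · obtain ⟨a, b, c⟩ := ht _ h
      rw [if_pos h]
      split_ifs <;> omega
    · rw [if_neg h]
      exact ⟨le_rfl, hv (Nat.le_succ _)⟩
  refine ⟨τ, fun j => ?_, fun j hj => ?_, fun B hB => ?_⟩
  · rcases Nat.mod_two_eq_zero_or_one j with h | h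
    · have e1 : (j + 1) / 2 = j / 2 := by omega
      have e2 : ¬ (j + 1) % 2 = 0 := by omega
      simp only [τ, e1, h, e2, if_true, if_false]
      split_ifs with hm
      · exact (ht _ hm).2.1
      · exact le_rfl
    · have e1 : (j + 1) / 2 = j / 2 + 1 := by omega
      have := (h1 (j + 1)).1
      rw [e1] at this
      exact (h1 j).2.trans this
  · rcases hj.eq_or_lt with rfl | h
    · have e1 : 2 * m / 2 = m := by omega
      simp only [τ, e1]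
      rw [if_neg fun hm => lt_irrefl _ (hF m hm)]
    · exact (h1 j).2.trans (hv (by omega))
  · have e1 : 2 * B / 2 = B := by omega
    have e2 : (2 * B + 1) / 2 = B := by omega
    have e3 : 2 * B % 2 = 0 := by omega
    have e4 : ¬ (2 * B + 1) % 2 = 0 := by omega
    simp only [τ, e1, e2, e3, e4, hB, if_true, if_false, and_self]

/-- labelled edges of the selected steps -/
lemma edges (hch : S_CHAIN) {α : Type} [DecidableEq α] (x y : α → ℝ) (P : Finset α)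
    (A : ℕ → Finset α) (th : ℕ → ℝ) (v s t : ℕ → ℕ) (F : Finset ℕ) (Y : ℕ → Finset α) (m g : ℕ)
    (hv : Monotone v) (hS : Slp x y P A th (v m)) (hF : ∀ B ∈ F, B < m)
    (ht : ∀ B ∈ F, v B ≤ s B ∧ s B ≤ t B ∧ t B ≤ v (B + 1))
    (hY : ∀ B ∈ F, Y B ⊆ A (s B) \ A (t B)) (hg : ∀ B ∈ F, g ≤ (Y B).card) :
    ∃ (E : Finset (α × α)) (lb : α × α → ℕ) (I : Finset (ℕ × α)) (C : ℕ × α → ℝ → ℝ)
      (ch : α × α → ℕ × α), Sys x y E I C ch ∧
      (∀ e ∈ E, lb e ∈ F ∧ e.1 ∈ A (t (lb e)) \ A (s (lb e)) ∧ e.2 ∈ Y (lb e)) ∧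
      E.card = g * ∑ B ∈ F, (Y B).card ∧
      (∀ p B, (E.filter fun e => e.1 = p ∧ lb e = B).card ≤ g) ∧
      (∀ p B, (E.filter fun e => e.2 = p ∧ lb e = B).card ≤ g) ∧
      ∑ e ∈ E, cr x y I C e ≤ 4 * (g * P.card) ^ 2 := by
  classical
  obtain ⟨τ, hτ1, hτ2, hτ3⟩ := times v s t F m hv hF ht
  have hsw : Sw x y P (fun j => A (τ j)) (fun j => th (τ j)) (2 * m) :=
    ⟨fun j hj => hS.sub _ (hτ2 j hj),
     fun j hj => hS.card _ _ (hτ2 _ hj) (hτ2 _ hj.le),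
     fun j hj => hS.mono _ _ (hτ1 j) (hτ2 _ hj),
     fun j hj => hS.slope _ _ (hτ1 j) (hτ2 _ hj)⟩
  obtain ⟨Ed, I, C, ch, h1, h2, h3, h4, h5, h6⟩ := hch α x y P _ _ _ hsw g
  have h2m : ∀ B ∈ F, 2 * B < 2 * m := fun B hB => by have := hF B hB; omega
  let lb : α × α → ℕ := fun e => if h : ∃ B ∈ F, e ∈ Ed (2 * B) then h.choose else 0
  have hlb : ∀ B ∈ F, ∀ e ∈ Ed (2 * B), lb e = B := by
    intro B hB e he
    have h : ∃ B ∈ F, e ∈ Ed (2 * B) := ⟨B, hB, he⟩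
    have := h5 _ (h2m _ h.choose_spec.1) _ (h2m _ hB) e h.choose_spec.2 he
    simp only [lb, dif_pos h]
    omega
  set E := F.biUnion fun B => (Ed (2 * B)).filter fun e => e.2 ∈ Y B with hE
  have hmem : ∀ e ∈ E, lb e ∈ F ∧ e ∈ Ed (2 * lb e) ∧ e.2 ∈ Y (lb e) := by
    intro e he
    obtain ⟨B, hB, he⟩ := mem_biUnion.1 he
    obtain ⟨a, b⟩ := mem_filter.1 he
    rw [hlb B hB e a]
    exact ⟨hB, a, b⟩
  have hsub : E ⊆ (range (2 * m)).biUnion Ed := fun e he =>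
    mem_biUnion.2 ⟨_, mem_range.2 (h2m _ (hmem e he).1), (hmem e he).2.1⟩
  have hdeg : ∀ (u : α × α → α), (∀ j < 2 * m, ∀ p, ((Ed j).filter fun e => u e = p).card ≤ g) →
      ∀ p B, (E.filter fun e => u e = p ∧ lb e = B).card ≤ g := by
    intro u hu p B
    rcases (E.filter fun e => u e = p ∧ lb e = B).eq_empty_or_nonempty with h0 | ⟨e, he⟩
    · simp [h0]
    obtain ⟨a, -, c⟩ := mem_filter.1 he
    refine le_trans (card_le_card fun e' he' => ?_) (hu _ (h2m B (c ▸ (hmem e a).1)) p)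
    obtain ⟨a', b', c'⟩ := mem_filter.1 he'
    exact mem_filter.2 ⟨c' ▸ (hmem e' a').2.1, b'⟩
  refine ⟨E, lb, I, C, ch, h1.mono hsub, fun e he => ?_, ?_,
    hdeg Prod.fst fun j hj p => (h3 j hj p).1, hdeg Prod.snd fun j hj p => (h3 j hj p).2,
    le_trans (sum_le_sum_of_subset hsub) h6⟩
  · obtain ⟨a, b, c⟩ := hmem e he
    have := (h2 _ (h2m _ a) e b).1
    simp only [(hτ3 _ a).1, (hτ3 _ a).2] at this
    exact ⟨a, this, c⟩
  · rw [hE, card_biUnion, mul_sum]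
    · refine sum_congr rfl fun B hB => ?_
      have h7 := h4 _ (h2m B hB)
      simp only [(hτ3 _ hB).1, (hτ3 _ hB).2] at h7
      have hle : t B ≤ v m := (ht B hB).2.2.trans (hv (hF B hB))
      have h8 := (h7 ((hg B hB).trans ((card_le_card (hY B hB)).trans (le_of_eq
        (card_sdiff_comm (hS.card _ _ ((ht B hB).2.1.trans hle) hle)))))).2
      rw [card_eq_sum_card_fiberwise (f := Prod.snd) (t := Y B)
        (s := (Ed (2 * B)).filter fun e => e.2 ∈ Y B)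
        (fun e he => mem_coe.2 (mem_filter.1 (mem_coe.1 he)).2), mul_comm g]
      refine sum_const_nat fun q hq => ?_
      rw [← h8 q (hY B hB hq), filter_filter]
      congr 1
      refine filter_congr fun e _ => ⟨fun h => h.2, fun h => ⟨h ▸ hq, h⟩⟩
    · intro B hB B' hB' hne
      simp only [Function.onFun, disjoint_left, mem_filter]
      intro e he he'
      exact hne ((hlb B hB e he.1).symm.trans (hlb B' hB' e he'.1))

/-- points with many visits -/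
lemma tail {α : Type} (P : Finset α) (S : α → Finset ℕ) (J : ℕ) (K z : ℝ) (hz : 1 ≤ z)
    (hS : ∀ a, ∀ B ∈ S a, B < 16 ^ J) (hT : KG.Tails P S J K) (Z : Finset α)
    (hZ : ∀ p ∈ Z, p ∈ P ∧ z ^ 4 * 2 ^ J < ((S p).card : ℝ)) :
    (∑ p ∈ Z, ((S p).card : ℝ)) * z ≤ K * (P.card * 2 ^ J) := by
  classical
  have h1 := hT.up J le_rfl z hz ((Z.sigma S).map (Equiv.sigmaEquivProd α ℕ).toEmbedding) (by
    intro c hc
    obtain ⟨⟨p, B⟩, hb, rfl⟩ := mem_map.1 hc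
    obtain ⟨a, b⟩ := mem_sigma.1 hb
    refine ⟨(hZ p a).1, b, ?_⟩
    have : KG.wn S p J B = S p := filter_true_of_mem fun A hA => by
      rw [Nat.div_eq_of_lt (hS p A hA), Nat.div_eq_of_lt (hS p B b)]
    show z ^ 4 * 2 ^ J < ((KG.wn S p J B).card : ℝ)
    rw [this]
    exact (hZ p a).2)
  rw [card_map, card_sigma] at h1
  exact_mod_cast h1

theorem tup_of (hch : S_CHAIN) : S_TUP := by
  classical
  intro K c hc
  set z : ℝ := max 1 (8 * K / c ^ 2) with hzd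
  have hz : 1 ≤ z := le_max_left _ _
  have hz2 : 8 * K ≤ z * c ^ 2 := (div_le_iff₀ (by positivity)).1 (le_max_right _ _)
  have hz0 : 0 < z := by linarith
  refine ⟨(c ^ 2) ^ 3 / (96 * z ^ 4), by positivity, fun C hC => ?_⟩
  refine ⟨z ^ 4 + 48 * 2048 ^ 2 * C / c ^ 17 + 16 * z ^ 8 / c ^ 6, ?_⟩
  intro J α _ x y P A th v S F s t Y hP hv hS hSlt hSw hT hsel hY
  have hn : 0 < P.card := card_pos.2 hP
  have hn' : (0 : ℝ) < P.card := by exact_mod_cast hn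
  have k1 : 0 ≤ z ^ 4 := by positivity
  have k2 : 0 ≤ 48 * 2048 ^ 2 * C / c ^ 17 := by positivity
  have k3 : 0 ≤ 16 * z ^ 8 / c ^ 6 := by positivity
  set g : ℕ := ⌈c * (P.card / 8 ^ J)⌉₊ with hgd
  have hg1 : c * (P.card / 8 ^ J) ≤ g := Nat.le_ceil _
  have hg : 0 < g := Nat.ceil_pos.2 (by positivity)
  have hg' : (0 : ℝ) < g := by exact_mod_cast hg
  obtain ⟨E, lb, I, Cc, ch, h1, h2, h3, h4, h5, h6⟩ := edges hch x y P A th v s t F Y (16 ^ J) g hv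
    hS hsel.sub hsel.time hY fun B hB => Nat.ceil_le.2 (hsel.size B hB)
  have htb : ∀ B ∈ F, t B ≤ v (16 ^ J) := fun B hB =>
    (hsel.time B hB).2.2.trans (hv (hsel.sub B hB))
  obtain ⟨h, hh⟩ : ∃ h : ℝ, h = 2 ^ J := ⟨_, rfl⟩
  have hh0 : 0 < h := by rw [hh]; positivity
  have p4 : (4 : ℝ) ^ J = h ^ 2 := by rw [hh, ← pow_mul, mul_comm, pow_mul]; norm_num
  have p8 : (8 : ℝ) ^ J = h ^ 3 := by rw [hh, ← pow_mul, mul_comm, pow_mul]; norm_num
  have p16 : (16 : ℝ) ^ J = h ^ 4 := by rw [hh, ← pow_mul, mul_comm, pow_mul]; norm_num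
  obtain ⟨M, hM⟩ : ∃ M : ℝ, M = 32 * g * P.card / (c ^ 2 * h) := ⟨_, rfl⟩
  have hM0 : 0 ≤ M := by rw [hM]; positivity
  have hE : ∀ e ∈ E, e.1 ∈ P ∧ e.2 ∈ P ∧ lb e ∈ S e.1 ∧ lb e ∈ S e.2 := by
    intro e he
    obtain ⟨a, b, c⟩ := h2 e he
    obtain ⟨u1, u2, u3⟩ := hsel.time _ a
    obtain ⟨b1, b2⟩ := mem_sdiff.1 b
    obtain ⟨c1, c2⟩ := mem_sdiff.1 (hY _ a c)
    exact ⟨hS.sub _ (htb _ a) b1, hS.sub _ (u2.trans (htb _ a)) c1,
      hSw _ _ (hsel.sub _ a) (KB.mem_act.2 ⟨⟨_, u1.trans u2, u3, b1⟩, _, u1, u2.trans u3, b2⟩),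
      hSw _ _ (hsel.sub _ a) (KB.mem_act.2 ⟨⟨_, u1, u2.trans u3, c1⟩, _, u1.trans u2, u3, c2⟩)⟩
  have hcard : c ^ 2 * P.card * h * g ≤ E.card := by
    have a1 : (F.card : ℝ) * (c * (P.card / 8 ^ J)) ≤ ∑ B ∈ F, ((Y B).card : ℝ) := by
      rw [← nsmul_eq_mul, ← sum_const]; exact sum_le_sum hsel.size
    have a2 : c * 16 ^ J * (c * (P.card / 8 ^ J)) ≤ F.card * (c * (P.card / 8 ^ J)) :=
      mul_le_mul_of_nonneg_right hsel.many (by positivity)
    have a3 : c * 16 ^ J * (c * (P.card / 8 ^ J)) = c ^ 2 * P.card * h := by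
      rw [p8, p16]; field_simp
    rw [h3]
    push_cast
    rw [mul_comm]
    exact mul_le_mul_of_nonneg_left (by linarith) hg'.le
  have htail : 8 * (∑ p ∈ P.filter fun p => z ^ 4 * h < (S p).card, ((S p).card : ℝ)) ≤
      c ^ 2 * P.card * h := by
    have a1 := tail P S J K z hz hSlt hT (P.filter fun p => z ^ 4 * h < (S p).card)
      fun p hp => by rw [← hh]; exact mem_filter.1 hp
    rw [← hh] at a1
    have a2 : 8 * K * (P.card * h) ≤ z * c ^ 2 * (P.card * h) :=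
      mul_le_mul_of_nonneg_right hz2 (by positivity)
    refine le_of_mul_le_mul_left ?_ hz0
    nlinarith
  obtain ⟨T, t1, t2, t3, t4, t5⟩ := tup_core x P S E lb (fun e => cr x y I Cc e)
    (fun e => P.filter fun w => near x y I Cc (4 * M) e w) F Y g h (c ^ 2) (z ^ 4) M _
    ((c ^ 2) ^ 3 / (96 * z ^ 4)) (C * (P.card / 16 ^ J)) hg hh0 (by positivity) hn (by positivity)
    hE (fun e he => ⟨(h2 e he).1, (h2 e he).2.2⟩) hcard h4 h5 (fun _ _ => by positivity)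
    (by rw [mul_assoc, ← mul_pow]; exact_mod_cast h6) hM rfl (fun _ _ => filter_subset _ _)
    (fun w _ => by
      refine le_trans ?_ ((near_pt h1 (4 * M) (by positivity) w).trans (by linarith))
      exact_mod_cast card_le_card fun e he =>
        mem_filter.2 ⟨(mem_filter.1 he).1, (mem_filter.1 (mem_filter.1 he).2).2⟩)
    _ (fun p hp hp' => mem_filter.2 ⟨hp, hp'⟩) htail
    (fun p p' q q0 _ b _ c1 c2 c3 u w => mem_filter.2 ⟨(hE _ b).1,
      near_tri x y I Cc M p p' q q0 (h1.lt _ b) u w c1 c2 c3⟩)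
    (by rw [← p4]; exact hsel.few) (le_of_eq (by field_simp))
  have hT0 : (0 : ℝ) < T.card := by
    have : 0 < (c ^ 2) ^ 3 * P.card * (h * g) ^ 3 := by positivity
    linarith
  have hsl : ∀ u ∈ T, ∀ i, x (u.2 i) < x u.1 ∧
      th (v (lb (u.2 i, u.1))) * (x u.1 - x (u.2 i)) < y u.1 - y (u.2 i) ∧
      y u.1 - y (u.2 i) < th (v (lb (u.2 i, u.1) + 1)) * (x u.1 - x (u.2 i)) := by
    intro u hu i
    obtain ⟨a, b, c⟩ := h2 _ (t1 u hu i).1
    obtain ⟨u1, u2, u3⟩ := hsel.time _ a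
    obtain ⟨w1, w2, w3⟩ := hS.slope _ _ u2 (htb _ a) _ b _ (hY _ a c)
    have m1 := hS.mono _ _ u1 (u2.trans (htb _ a))
    have m2 := hS.mono _ _ u3 (hv (hsel.sub _ a))
    have w0 := sub_nonneg.2 w1.le
    exact ⟨w1, (mul_le_mul_of_nonneg_right m1 w0).trans_lt w2,
      w3.trans_le (mul_le_mul_of_nonneg_right m2 w0)⟩
  refine ⟨T, fun i u => lb (u.2 i, u.1), card_pos.1 (by exact_mod_cast hT0),
    fun u hu i => (hE _ (t1 u hu i).1).1, fun u hu i => (hsl u hu i).1,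
    fun u hu i => (hsl u hu i).2.1, fun u hu i => (hsl u hu i).2.2,
    fun u hu i => (hE _ (t1 u hu i).1).2.2.1, fun u hu i j hij => (t2 u hu i j hij).1,
    fun u hu i => ?_, fun π i j hij B B' Q hQ hq => ?_,
    ⟨T.image Prod.snd, fun u hu => mem_image_of_mem _ hu, ?_⟩, fun i a B Q hQ hq => ?_⟩
  · rw [← hh]
    exact (t1 u hu i).2.trans (mul_le_mul_of_nonneg_right (by linarith) hh0.le)
  · rcases Q.eq_empty_or_nonempty with rfl | ⟨u, hu⟩
    · rw [card_empty, Nat.cast_zero]; positivity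
    have a1 := (t2 u (hQ hu) i j hij).2
    rw [(hq u hu).2.1, (hq u hu).2.2] at a1
    refine le_trans ?_ a1
    refine Nat.cast_le.2 (card_le_card_of_injOn Prod.fst (fun w hw => ?_) fun w hw w' hw' e => ?_)
    · have b1 := (h2 _ (t1 w (hQ hw) i).1).2.2
      have b2 := (h2 _ (t1 w (hQ hw) j).1).2.2
      rw [(hq w hw).2.1] at b1
      rw [(hq w hw).2.2] at b2
      exact mem_coe.2 (mem_inter.2 ⟨b1, b2⟩)
    · exact Prod.ext e (funext fun k => ((hq w hw).1 k).trans ((hq w' hw').1 k).symm)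
  · rw [p8] at hg1
    rw [p4, p16]
    have a1 : (c ^ 2) ^ 3 * P.card * (h * (c * (P.card / h ^ 3))) ^ 3 ≤ 16 * T.card :=
      le_trans (by gcongr) t3
    calc _ ≤ 3 * P.card * (2048 * P.card / ((c ^ 2) ^ 2 * h ^ 2)) ^ 2 *
          (C * (P.card / h ^ 4) * h ^ 2) := mul_le_mul_of_nonneg_right t4 (by positivity)
      _ = 48 * 2048 ^ 2 * C / c ^ 17 *
          ((c ^ 2) ^ 3 * P.card * (h * (c * (P.card / h ^ 3))) ^ 3 / 16) := by field_simp; ring
      _ ≤ 48 * 2048 ^ 2 * C / c ^ 17 * T.card := by gcongr; linarith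
      _ ≤ _ := mul_le_mul_of_nonneg_right (by linarith) hT0.le
  · rw [← hh]
    calc _ ≤ g * (z ^ 4 * h * g) ^ 2 * (P.card * h) :=
          mul_le_mul_of_nonneg_right (t5 i a B Q hQ hq) (by positivity)
      _ = 16 * z ^ 8 / c ^ 6 * ((c ^ 2) ^ 3 * P.card * (h * g) ^ 3 / 16) := by field_simp
      _ ≤ 16 * z ^ 8 / c ^ 6 * T.card := by gcongr; linarith
      _ ≤ _ := mul_le_mul_of_nonneg_right (by linarith) hT0.le

end Pool.Agent.P.MP_77a832_co.KT
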